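import Pool.Agent.X263.PB.Main

/-!
The three point space `{0, 1, 3} ⊂ ℝ` is doubling with constant `2`, has absolute
`1`-extendability constant `1`, and its absolute `p`-extendability constant tends to infinity as `p`
tends to `0`.
-/

set_option autoImplicit false

namespace Pool.Agent.Results.MP_d7144b_an.ThreePoints

open Pool.Agent.X263.PB Filter
open scoped ENNReal NNReal Topology

/-- The points of the space. -/
noncomputable def t0 : T := ⟨0, by simp⟩
/-- The points of the space. -/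
noncomputable def t1 : T := ⟨1, by simp⟩
/-- The points of the space. -/
noncomputable def t3 : T := ⟨3, by simp⟩

theorem cases_T (x : T) : x = t0 ∨ x = t1 ∨ x = t3 := by
  obtain ⟨x, hx⟩ := x
  simp only [Set.mem_insert_iff, Set.mem_singleton_iff] at hx
  rcases hx with rfl | rfl | rfl
  · left; rfl
  · right; left; rfl
  · right; right; rfl

theorem d01 : dist t0 t1 = 1 := by
  rw [Subtype.dist_eq, Real.dist_eq]
  simp [t0, t1]
theorem d03 : dist t0 t3 = 3 := by
  rw [Subtype.dist_eq, Real.dist_eq]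
  simp [t0, t3]
theorem d13 : dist t1 t3 = 2 := by
  rw [Subtype.dist_eq, Real.dist_eq]
  simp only [t1, t3]
  norm_num

theorem doubling : DoublingLE T 2 := by
  intro x r hr
  by_cases h : 1 ≤ r
  · refine ⟨![t0, t3], fun y _ => ?_⟩
    rw [Set.mem_iUnion]
    rcases cases_T y with rfl | rfl | rfl
    · exact ⟨0, by simp [hr.le]⟩
    · refine ⟨0, ?_⟩
      rw [Metric.mem_closedBall, dist_comm]
      change dist t0 t1 ≤ r
      rw [d01]
      exact h
    · exact ⟨1, by simp [hr.le]⟩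
  · push Not at h
    rcases cases_T x with rfl | rfl | rfl
    · refine ⟨![t0, t1], fun y hy => ?_⟩
      rw [Set.mem_iUnion]
      rcases cases_T y with rfl | rfl | rfl
      · exact ⟨0, by simp [hr.le]⟩
      · exact ⟨1, by simp [hr.le]⟩
      · rw [Metric.mem_closedBall, dist_comm, d03] at hy
        linarith
    · refine ⟨![t0, t1], fun y hy => ?_⟩
      rw [Set.mem_iUnion]
      rcases cases_T y with rfl | rfl | rfl
      · exact ⟨0, by simp [hr.le]⟩
      · exact ⟨1, by simp [hr.le]⟩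
      · rw [Metric.mem_closedBall, dist_comm, d13] at hy
        linarith
    · refine ⟨![t3, t3], fun y hy => ?_⟩
      rw [Set.mem_iUnion]
      rcases cases_T y with rfl | rfl | rfl
      · rw [Metric.mem_closedBall, d03] at hy
        linarith
      · rw [Metric.mem_closedBall, d13] at hy
        linarith
      · exact ⟨0, by simp [hr.le]⟩

theorem doubling_mono {X : Type} [MetricSpace X] {m n : ℕ} (hm : 0 < m) (hmn : m ≤ n)
    (h : DoublingLE X m) : DoublingLE X n := by
  intro x r hr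
  obtain ⟨c, hc⟩ := h x r hr
  refine ⟨fun i => if hi : (i : ℕ) < m then c ⟨i, hi⟩ else c ⟨0, hm⟩, fun y hy => ?_⟩
  have h1 := hc hy
  rw [Set.mem_iUnion] at h1 ⊢
  obtain ⟨i, hi⟩ := h1
  refine ⟨⟨i, i.2.trans_le hmn⟩, ?_⟩
  simpa using hi

/-- The truncated identity `max 0 (min 1 t)`. -/
noncomputable def cl (t : ℝ) : ℝ := max 0 (min 1 t)

theorem cl_le {s t : ℝ} (hst : s ≤ t) : 0 ≤ cl t - cl s ∧ 0 ≤ cl ((t - 1) / 2) - cl ((s - 1) / 2) ∧
    (cl t - cl s) + 2 * (cl ((t - 1) / 2) - cl ((s - 1) / 2)) ≤ t - s := by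
  unfold cl
  refine ⟨?_, ?_, ?_⟩ <;>
  rcases max_cases 0 (min 1 t) with ⟨h1, h1'⟩ | ⟨h1, h1'⟩ <;>
  rcases max_cases 0 (min 1 s) with ⟨h2, h2'⟩ | ⟨h2, h2'⟩ <;>
  rcases max_cases 0 (min 1 ((t - 1) / 2)) with ⟨h3, h3'⟩ | ⟨h3, h3'⟩ <;>
  rcases max_cases 0 (min 1 ((s - 1) / 2)) with ⟨h4, h4'⟩ | ⟨h4, h4'⟩ <;>
  rcases min_cases 1 t with ⟨k1, k1'⟩ | ⟨k1, k1'⟩ <;>
  rcases min_cases 1 s with ⟨k2, k2'⟩ | ⟨k2, k2'⟩ <;>
  rcases min_cases 1 ((t - 1) / 2) with ⟨k3, k3'⟩ | ⟨k3, k3'⟩ <;>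
  rcases min_cases 1 ((s - 1) / 2) with ⟨k4, k4'⟩ | ⟨k4, k4'⟩ <;>
  linarith

theorem extends_one {M : Type} [MetricSpace M] (i : T → M) (hi : Isometry i) :
    Extends 1 (Set.range i) 1 := by
  classical
  intro Z _ _ N hN _ f L hL hf
  -- properties of the norm
  have N0 : N 0 = 0 := by
    have := hN.smul 0 0
    simpa using this
  have Nnn : ∀ x, 0 ≤ N x := by
    intro x
    by_cases hx : x = 0
    · rw [hx, N0]
    · exact (hN.pos x hx).le
  have Nadd : ∀ x y, N (x + y) ≤ N x + N y := by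
    intro x y
    have := hN.add x y
    simpa only [Real.rpow_one] using this
  -- a 1-Lipschitz function extending the inclusion
  have hinj := hi.injective
  let u : M → ℝ := fun m => if h : m ∈ Set.range i then ((Classical.choose h : T) : ℝ) else 0
  have hu : ∀ t : T, u (i t) = t := by
    intro t
    have h : i t ∈ Set.range i := ⟨t, rfl⟩
    have h2 : Classical.choose h = t := hinj (Classical.choose_spec h)
    simp only [u]
    rw [dif_pos h, h2]
  have hul : LipschitzOnWith 1 u (Set.range i) := by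
    refine LipschitzOnWith.of_dist_le_mul ?_
    rintro _ ⟨s, rfl⟩ _ ⟨t, rfl⟩
    rw [hu, hu, NNReal.coe_one, one_mul, hi.dist_eq]
    exact le_rfl
  obtain ⟨φ, hφ, hφu⟩ := hul.extend_real
  have hφ' : ∀ t : T, φ (i t) = t := fun t => by rw [← hφu ⟨t, rfl⟩, hu]
  have hφd : ∀ x y, |φ x - φ y| ≤ dist x y := by
    intro x y
    have := hφ.dist_le_mul x y
    rwa [Real.dist_eq, NNReal.coe_one, one_mul] at this
  let f0 : Z := f ⟨i t0, ⟨t0, rfl⟩⟩
  let f1 : Z := f ⟨i t1, ⟨t1, rfl⟩⟩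
  let f3 : Z := f ⟨i t3, ⟨t3, rfl⟩⟩
  have e1 : N (f1 - f0) ≤ L := by
    have := hf ⟨i t1, ⟨t1, rfl⟩⟩ ⟨i t0, ⟨t0, rfl⟩⟩
    rw [Subtype.dist_eq, hi.dist_eq, dist_comm, d01, mul_one] at this
    exact this
  have e2 : N (f3 - f1) ≤ L * 2 := by
    have := hf ⟨i t3, ⟨t3, rfl⟩⟩ ⟨i t1, ⟨t1, rfl⟩⟩
    rw [Subtype.dist_eq, hi.dist_eq, dist_comm, d13] at this
    exact this
  let h : ℝ → Z := fun t => f0 + cl t • (f1 - f0) + cl ((t - 1) / 2) • (f3 - f1)
  have hh : ∀ s t : ℝ, N (h s - h t) ≤ L * |s - t| := by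
    intro s t
    have h1 : h s - h t = (cl s - cl t) • (f1 - f0) +
        (cl ((s - 1) / 2) - cl ((t - 1) / 2)) • (f3 - f1) := by
      simp only [h]
      rw [sub_smul (cl s), sub_smul (cl ((s - 1) / 2))]
      abel
    rw [h1]
    refine (Nadd _ _).trans ?_
    rw [hN.smul, hN.smul]
    have h2 : |cl s - cl t| + 2 * |cl ((s - 1) / 2) - cl ((t - 1) / 2)| ≤ |s - t| := by
      rcases le_total s t with hst | hst
      · obtain ⟨a1, a2, a3⟩ := cl_le hst
        rw [abs_sub_comm, abs_of_nonneg a1, abs_sub_comm (cl ((s - 1) / 2)), abs_of_nonneg a2,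
          abs_sub_comm, abs_of_nonneg (sub_nonneg.2 hst)]
        exact a3
      · obtain ⟨a1, a2, a3⟩ := cl_le hst
        rw [abs_of_nonneg a1, abs_of_nonneg a2, abs_of_nonneg (sub_nonneg.2 hst)]
        exact a3
    calc |cl s - cl t| * N (f1 - f0) + |cl ((s - 1) / 2) - cl ((t - 1) / 2)| * N (f3 - f1)
        ≤ |cl s - cl t| * L + |cl ((s - 1) / 2) - cl ((t - 1) / 2)| * (L * 2) :=
          add_le_add (mul_le_mul_of_nonneg_left e1 (abs_nonneg _))
            (mul_le_mul_of_nonneg_left e2 (abs_nonneg _))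
      _ = L * (|cl s - cl t| + 2 * |cl ((s - 1) / 2) - cl ((t - 1) / 2)|) := by ring
      _ ≤ L * |s - t| := mul_le_mul_of_nonneg_left h2 hL
  refine ⟨fun m => h (φ m), ?_, fun x y => ?_⟩
  · rintro ⟨_, ⟨t, rfl⟩⟩
    change h (φ (i t)) = _
    rw [hφ' t]
    rcases cases_T t with rfl | rfl | rfl
    · have c1 : cl (t0 : ℝ) = 0 := by simp [cl, t0]
      have c2 : cl (((t0 : ℝ) - 1) / 2) = 0 := by
        simp only [cl, t0]
        norm_num
      simp only [h]
      rw [c1, c2, zero_smul, zero_smul, add_zero, add_zero]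
    · have c1 : cl (t1 : ℝ) = 1 := by simp [cl, t1]
      have c2 : cl (((t1 : ℝ) - 1) / 2) = 0 := by simp [cl, t1]
      simp only [h]
      rw [c1, c2, zero_smul, one_smul, add_zero, add_sub_cancel]
    · have c1 : cl (t3 : ℝ) = 1 := by
        simp only [cl, t3]
        norm_num
      have c2 : cl (((t3 : ℝ) - 1) / 2) = 1 := by
        simp only [cl, t3]
        norm_num
      simp only [h]
      rw [c1, c2, one_smul, one_smul, add_sub_cancel, add_sub_cancel]
  · rw [one_mul]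
    exact (hh _ _).trans (mul_le_mul_of_nonneg_left (hφd x y) hL)

theorem ae_one_le : ae 1 T ≤ 1 := by
  refine iSup_le fun M => iSup_le fun _ => iSup_le fun i => iSup_le fun hi => ?_
  refine iInf_le_of_le 1 (iInf_le_of_le one_pos (iInf_le_of_le ?_ ?_))
  · simpa using extends_one i hi
  · simp

theorem one_le_ae : 1 ≤ ae 1 T := by
  refine le_trans ?_ (trace_le_ae 1)
  refine le_iInf fun C => le_iInf fun _ => le_iInf fun hC => ?_
  have hN : IsPNorm 1 (fun x : ℝ => |x|) :=
    { pos := fun x hx => abs_pos.2 hx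
      smul := fun a x => by rw [smul_eq_mul, abs_mul]
      add := fun x y => by
        simp only [Real.rpow_one]
        exact abs_add_le x y }
  have hc : IsCompleteFor 1 (fun x : ℝ => |x|) := by
    intro u hu
    have h1 : CauchySeq u := by
      rw [Metric.cauchySeq_iff]
      intro ε hε
      obtain ⟨n₀, h⟩ := hu ε hε
      refine ⟨n₀, fun m hm n hn => ?_⟩
      have := h m hm n hn
      rwa [Real.rpow_one] at this
    obtain ⟨x, hx⟩ := cauchySeq_tendsto_of_complete h1
    refine ⟨x, fun ε hε => ?_⟩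
    obtain ⟨n₀, h⟩ := (Metric.tendsto_atTop.1 hx) ε hε
    refine ⟨n₀, fun n hn => ?_⟩
    have := h n hn
    rwa [Real.rpow_one]
  obtain ⟨g, hg, hlip⟩ := hC ℝ (fun x : ℝ => |x|) hN hc (fun x => (x : ℝ)) 1 zero_le_one
    (fun x y => by rw [one_mul, Subtype.dist_eq, Real.dist_eq])
  have g0 : g 0 = 0 := hg ⟨0, by simp⟩
  have g1 : g 1 = 1 := hg ⟨1, by simp⟩
  have h := hlip 0 1
  simp only [g0, g1] at h
  rw [Real.dist_eq] at h
  norm_num at h
  rw [ENNReal.one_le_coe_iff]
  exact_mod_cast h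

theorem ae_one : ae 1 T = 1 := le_antisymm ae_one_le one_le_ae

/-- There is a three point metric space `X`, doubling with constant at most `2`, with
`ae_1(X) = 1` and `ae_p(X) / ae_1(X) → ∞` as `p → 0`. In particular, for every `n ≥ 2` the supremum
over all metric spaces `X` doubling with constant at most `n` of the limit (inferior) of
`ae_p(X) / ae_1(X)` as `p → 0` is infinite. -/
theorem result :
    (∃ (X : Type) (_ : MetricSpace X), Nat.card X = 3 ∧ DoublingLE X 2 ∧ ae 1 X = 1 ∧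
      Tendsto (fun p : ℝ => ae p X / ae 1 X) (𝓝[>] 0) (𝓝 ⊤)) ∧
    ∀ n : ℕ, 2 ≤ n → (⨆ (X : Type) (_ : MetricSpace X) (_ : DoublingLE X n),
      liminf (fun p : ℝ => ae p X / ae 1 X) (𝓝[>] 0)) = ⊤ := by
  have h1 : Tendsto (fun p : ℝ => ae p T / ae 1 T) (𝓝[>] 0) (𝓝 ⊤) := by
    simp only [ae_one, div_one]
    exact tendsto_ae
  refine ⟨⟨T, inferInstance, card_T, doubling, ae_one, h1⟩, fun n hn => ?_⟩
  rw [eq_top_iff, ← h1.liminf_eq]
  exact le_iSup_of_le T (le_iSup_of_le inferInstance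
    (le_iSup_of_le (doubling_mono two_pos hn doubling) le_rfl))

end Pool.Agent.Results.MP_d7144b_an.ThreePoints
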